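import Pool.Agent.R479.NF.Full

/-!
# MP_12adaf_nt: approximation of local points on almost all of the varieties
# `N_{Kᵢ/ℚ}(zᵢ) = cᵢ (f(t) + k)` for abelian fields `Kᵢ`

Let `f` be any integral polynomial of degree at least two in any number of variables, let the `cᵢ` be
nonzero integers, and let the `Kᵢ` be abelian number fields of any degrees (subfields of a cyclotomic
field) with class numbers prime to their degrees, such that `-1` is a norm (for example, if the degree is
odd) or all norms are nonnegative (if the field is imaginary). The varieties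
`V_k : N_{Kᵢ/ℚ}(zᵢ) = cᵢ (f(t) + k) ≠ 0`, `i < r`, are smooth and geometrically rational, so that their
smooth projective models are geometrically rationally connected. There is a finite set `T₀` of primes such
that for every finite set `T` containing it, all `N` and `U` and all but `X / (log X) ^ U` of the integers
`|k| ≤ X` the following holds, under the necessary condition at the real place: for every family of
`p`-adic points `(t_p, z_p)` of `V_k`, `p` in `T`, with `|t_p| ≤ p ^ N` and `|f(t_p) + k| ≥ p ^ (-N)`, there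
is a rational point `(t, z)` of `V_k` with `|t - t_p| ≤ p ^ (-N)` for all `p` in `T`.

Proof. As in the theorem of the file `ShiftedPolynomials` for quadratic fields, for almost all `k` there
is a rational `t` close to the given ones such that `f(t) + k` is a prime number `q` up to the primes of `T`
(a second moment over `k`, `Pool/Agent/TH204`). Approximate the `z_p` by an element `x` of `Kᵢ` with positive
norm. Then `cᵢ (f(t) + k) / N(x)` is `q / a` up to the primes of `T`, where `a` is the norm of an integral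
ideal prime to `T`, and it is close to `1` at all `p` in `T`; so `q` is congruent to `a` modulo the
conductor. By the reciprocity law of the cyclotomic field (the Frobenius automorphisms) `q` is the norm of
a prime ideal of `Kᵢ`. As the class number is prime to the degree, the norm of every ideal is the norm of an
element.
-/

set_option autoImplicit false

namespace Pool.Agent.Results.MP_12adaf_nt.AbelianNormForms

open Finset MvPolynomial NumberField Module TensorProduct

instance (p : Nat.Primes) : Fact (p : ℕ).Prime := ⟨p.2⟩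

variable {L : Type} [Field L] [NumberField L] {r s : ℕ}

/-- The class number of the field `K` is prime to its degree, and `-1` is a norm or no negative number is
a norm. -/
def Admissible (K : IntermediateField ℚ L) : Prop :=
  (classNumber K).Coprime (finrank ℚ K) ∧
    ((∃ x : K, Algebra.norm ℚ x = -1) ∨ ∀ x : K, 0 ≤ Algebra.norm ℚ x)

/-- The point `(t, z)` with coordinates in the field `F` lies on `V_k`. The coordinates `zᵢ` form an
element of `F ⊗ Kᵢ`. -/
def OnV (K : Fin r → IntermediateField ℚ L) (f : MvPolynomial (Fin s) ℤ) (c : Fin r → ℤ) (k : ℤ)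
    {F : Type} [Field F] [Algebra ℚ F] (t : Fin s → F) (z : (i : Fin r) → F ⊗[ℚ] (K i)) : Prop :=
  aeval t f + (k : F) ≠ 0 ∧ ∀ i, Algebra.norm F (z i) = (c i : F) * (aeval t f + (k : F))

/-- Approximation of level `N` at the primes of `T`. -/
def Approximation (K : Fin r → IntermediateField ℚ L) (f : MvPolynomial (Fin s) ℤ) (c : Fin r → ℤ)
    (T : Finset Nat.Primes) (N : ℕ) (k : ℤ) : Prop :=
  ∀ (t : (p : Nat.Primes) → Fin s → ℚ_[(p : ℕ)]) (z : (p : Nat.Primes) → (i : Fin r) → ℚ_[(p : ℕ)] ⊗[ℚ] (K i)),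
    (∀ p ∈ T, OnV K f c k (t p) (z p) ∧ (∀ j, ‖t p j‖ ≤ ((p : ℕ) : ℝ) ^ N) ∧
      (((p : ℕ) : ℝ) ^ N)⁻¹ ≤ ‖aeval (t p) f + (k : ℚ_[(p : ℕ)])‖) →
    ∃ (x : Fin s → ℚ) (y : (i : Fin r) → ℚ ⊗[ℚ] (K i)), OnV K f c k x y ∧
      ∀ p ∈ T, ∀ j, ‖(x j : ℚ_[(p : ℕ)]) - t p j‖ ≤ (((p : ℕ) : ℝ) ^ N)⁻¹

/-- The condition at the real place: there is a sign `σ` such that `σ cᵢ > 0` if `-1` is not a norm from
`Kᵢ`, and such that `σ k > 0` or the leading form of `f` takes a value of the sign `σ` at an integral
vector. -/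
def RealCond (K : Fin r → IntermediateField ℚ L) (f : MvPolynomial (Fin s) ℤ) (c : Fin r → ℤ) (k : ℤ) :
    Prop :=
  ∃ σ : ℤ, (σ = 1 ∨ σ = -1) ∧ (∀ i, (∃ x : K i, Algebra.norm ℚ x = -1) ∨ 0 < σ * c i) ∧
    (0 < σ * k ∨ ∃ v : Fin s → ℤ, 0 < σ * eval v (homogeneousComponent f.totalDegree f))

open Classical in
/-- Almost all of the `V_k` satisfy the approximation property, for the coordinates `t`. Here `L` is the
`m`-th cyclotomic field, and the `Kᵢ` are any of its subfields. -/
theorem result (m : ℕ) [NeZero m] [IsCyclotomicExtension {m} ℚ L] (K : Fin r → IntermediateField ℚ L) (hK : ∀ i, Admissible (K i))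
    (f : MvPolynomial (Fin s) ℤ) (hf : 2 ≤ f.totalDegree) (c : Fin r → ℤ) (hc : ∀ i, c i ≠ 0) :
    ∃ T₀ : Finset Nat.Primes, ∀ T : Finset Nat.Primes, T₀ ⊆ T → ∀ N U : ℕ, ∃ X₀ : ℕ, ∀ X : ℕ, X₀ ≤ X →
      (#{k ∈ Icc (-(X : ℤ)) X | ¬ (RealCond K f c k → Approximation K f c T N k)} : ℝ) ≤
        X / Real.log X ^ U := by
  obtain ⟨T₀, h⟩ := Pool.Agent.R479.NF.mainA m K (fun i => (hK i).1) (fun i => (hK i).2) f hf c hc
  refine ⟨T₀, fun T hT N U => ?_⟩
  obtain ⟨X₀, h⟩ := h T hT N U
  refine ⟨X₀, fun X hX => ?_⟩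
  obtain ⟨Bad, hB1, hB2⟩ := h X hX
  refine le_trans ?_ hB1
  have hsub : {k ∈ Icc (-(X : ℤ)) X | ¬ (RealCond K f c k → Approximation K f c T N k)} ⊆ Bad := by
    intro k hk
    rw [mem_filter, mem_Icc] at hk
    by_contra hkB
    apply hk.2
    intro hr t z hloc
    obtain ⟨x, hx1, hx2, hx3⟩ := hB2 k (abs_le.2 hk.1) hkB (by
      obtain ⟨σ, hσ, h1, h2⟩ := hr
      refine ⟨σ, hσ, h1, ?_⟩
      simp only [Pool.Agent.TH204.HP.lead_eq]
      exact h2) t (fun p hp => ⟨(hloc p hp).2.1, (hloc p hp).2.2, fun i => ⟨z p i, (hloc p hp).1.2 i⟩⟩)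
    choose y hy using hx3
    refine ⟨x, fun i => (1 : ℚ) ⊗ₜ[ℚ] y i, ⟨hx2, fun i => ?_⟩, hx1⟩
    rw [Pool.Agent.R479.NF.norm_one_tmul_rat, hy i]
  exact_mod_cast card_le_card hsub

end Pool.Agent.Results.MP_12adaf_nt.AbelianNormForms
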