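import Pool.Agent.R70.BT2.Two

/-!
# Hypersurfaces of bidegree `(2, 2)`: the closure of the rational points is open

Let `F(x, y) = ∑ c_ijkl x_i x_j y_k y_l` be a form of bidegree `(2, 2)` over a number field `K`, and
`X` the hypersurface `F = 0` in `ℙᵃ × ℙᵇ`. If `X` is smooth and `a, b ≥ 2`, then it is a Fano variety
(a Verra threefold for `a = b = 2`), hence rationally connected, and the conjecture of
Colliot-Thélène implies that the closure of `X(K)` in the product of the `X(K_v)`, `v` in a finite
set `S` of places, is open. We prove this for general `X` and all `S`, and for arbitrary `X` at all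
systems of points which satisfy an explicit geometric condition.

For a point `y` let `Q_y` be the quadric `F(·, y) = 0`.

**Theorem 1.** Let `a, b ≥ 2`, let `X` be smooth, and suppose that for all points `y` over the
algebraic closure the linear forms `∂_y F(x', y)`, `x' ∈ Q_y`, are not all proportional, and the
same with `x` and `y` exchanged. Suppose moreover that the forms `F(x, ·)` and `F(·, y)` are different
from zero for all nonzero vectors `x` and `y` over the `K_v`. Then the closure of `X(K)` in the
product of the `X(K_v)`, `v ∈ S`, is open in this product.

(The second condition says that the intersection of `X` with `ℙᵃ × {y}` is not a part of `X` along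
which the tangent spaces of the fibres over `ℙᵃ` are constant; all the conditions are satisfied
outside of a proper closed subset of the space of all forms, and the last one follows from the
smoothness for `a = b`. We do not prove these two remarks.)

The point `(x, y)` of `X` over `K_v` satisfies the condition `(G)`, if there are two points `x'` and
`x''` of `Q_y` over the algebraic closure of `K_v`, such that `x` and `x'`, as well as `x'` and
`x''`, are not conjugate with respect to `Q_y` (the polar form of `F(·, y)` does not vanish), and
such that the linear forms `∂_y F(x', y)` and `∂_y F(x'', y)` are linearly independent.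

**Theorem 2.** Let `T = (T_v)` be in the closure of `X(K)`, without any condition on `X`.

(1) Suppose that all `T_v` satisfy the condition `(G)`, or that they all satisfy it after an
exchange of `x` and `y`. Then the closure of `X(K)` in the product of the `X(K_v)` is a
neighbourhood of `T`.

(2) The same holds if each `T_v` satisfies the condition `(G)`, perhaps after an exchange of `x` and
`y` depending on `v`, provided that the forms `F(x, ·)` and `F(·, y)` are different from zero for
all nonzero vectors `x` and `y` over the `K_v`.

In the formal statement we work with the coordinates `(x, y)`, that is with the affine cone over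
`X`, and the fields `K_v` may be arbitrary complete valued fields such that `K` is dense in their
product (for a number field and different places this is the weak approximation theorem).

Idea of the proof. The closure of `X(K)` is stable under changes of `x` or of `y`, which are not
approximated: if `(x, y)` belongs to it, then also `(s(x), y)`, where `s` is the reflection in a
vector `u` over the `K_v` with respect to the quadratic form `F(·, y)`. As the reflections are
involutions, one can change the components for some `v`, and at the other `v` return to the same
point. Under the condition `(G)` one can reach all the local points close to `(x, y)` by such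
changes (first `x` is replaced by `x'`, then `y` is changed a little, then `x'` is replaced by a
point close to `x''`, then `y` is changed again, and then one returns to `x`); this follows from the
theorem on implicit functions. For Theorem 1 we show that all the points of `X` satisfy `(G)`,
perhaps after an exchange of `x` and `y`.
-/

set_option autoImplicit false

namespace Pool.Agent.Results.MP_12adaf_nt.BidegreeTwoTwo

open Pool.Agent.R70.BT Pool.Agent.R70.BT2 Topology

/-- the form over an extension of the field -/
def ext {K E : Type} [Field K] [Field E] (φ : K →+* E) {A B : ℕ}
    (c : Fin A → Fin A → Fin B → Fin B → K) : Fin A → Fin A → Fin B → Fin B → E :=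
  fun i j k l => φ (c i j k l)

/-- `F(x, ·)` and `F(·, y)` are not identically zero for nonzero vectors `x`, `y`. -/
def Nonzero {E : Type} [Field E] {A B : ℕ} (c : Fin A → Fin A → Fin B → Fin B → E) : Prop :=
  (∀ x, x ≠ 0 → ∃ y, form c x y ≠ 0) ∧ ∀ y, y ≠ 0 → ∃ x, form c x y ≠ 0

/-- `T` is an interior point of the closure of the set of the `K`-points of `X` in the product of
the sets of the `L v`-points of `X`. -/
def OpenAt {K : Type} [Field K] {A B : ℕ} (c : Fin A → Fin A → Fin B → Fin B → K) {ι : Type}
    {L : ι → Type} [∀ v, NontriviallyNormedField (L v)] (σ : ∀ v, K →+* L v)
    (T : ∀ v, (Fin A → L v) × (Fin B → L v)) : Prop :=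
  ∃ U ∈ 𝓝 T, ∀ S ∈ U, (∀ v, form (ext (σ v) c) (S v).1 (S v).2 = 0) → S ∈ closure (pts c σ)

/-- Let `F = ∑ c_ijkl x_i x_j y_k y_l` be a form of bidegree `(2, 2)` over `K` in `A` variables `x`
and `B` variables `y`, and `X` its set of zeros `(x, y)`.

(1) Let `A, B ≥ 3` and suppose that `F(x, ·)` and `F(·, y)` are not identically zero for nonzero
`x`, `y` over the `L v`, and that `F` is general over the algebraic closures of the `L v` (`X` is
smooth, and for all `y` the linear forms `∂_y F(x', y)`, `F(x', y) = 0`, are not all proportional,
and the same with `x` and `y` exchanged). Let `T` be a point of the product of the `X(L v)` in the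
closure of `X(K)` with nonzero components. Then all the points of the product of the `X(L v)` close
to `T` belong to the closure of `X(K)`.

(2) Let `T` be a point of the product of the `X(L v)` in the closure of `X(K)`. If all `T v`, or all
`T v` after an exchange of the two groups of variables, satisfy the condition `GoodOver` over the
algebraic closures of the `L v`, or if `F(x, ·)` and `F(·, y)` are not identically zero for nonzero
`x`, `y` over the `L v`, and each `T v` satisfies the condition, perhaps after an exchange depending
on `v`, then all the points of the product of the `X(L v)` close to `T` belong to the closure of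
`X(K)`. -/
theorem result {K : Type} [Field K] {A B : ℕ} (c : Fin A → Fin A → Fin B → Fin B → K)
    {ι : Type} [Finite ι] (L : ι → Type) [∀ v, NontriviallyNormedField (L v)]
    [∀ v, CompleteSpace (L v)] (σ : ∀ v, K →+* L v)
    (hσ : DenseRange fun (a : K) (v : ι) => σ v a) :
    (3 ≤ A → 3 ≤ B → (∀ v, Nonzero (ext (σ v) c)) →
      (∀ v, General (ext (algebraMap (L v) (AlgebraicClosure (L v))) (ext (σ v) c))) →
      ∀ T ∈ closure (pts c σ), (∀ v, (T v).1 ≠ 0 ∧ (T v).2 ≠ 0) → OpenAt c σ T) ∧
    ∀ T ∈ closure (pts c σ),
      ((∀ v, GoodOver (ext (σ v) c) (AlgebraicClosure (L v)) (T v)) ∨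
        (∀ v, GoodOver (sw (ext (σ v) c)) (AlgebraicClosure (L v)) (T v).swap) ∨
        ((∀ v, Nonzero (ext (σ v) c)) ∧
          ∀ v, GoodOver (ext (σ v) c) (AlgebraicClosure (L v)) (T v) ∨
            GoodOver (sw (ext (σ v) c)) (AlgebraicClosure (L v)) (T v).swap)) →
      OpenAt c σ T := by
  have hinf : ∀ v, Infinite (L v) := fun v => NontriviallyNormedField.infinite (L v)
  refine ⟨fun hA hB hF hg T hT hne => ?_, fun T hT hG => ?_⟩
  · refine mixed hσ (fun v => (hF v).2) (fun v => (hF v).1) hT
      (M := fun v => AlgebraicClosure (L v)) fun v => ?_
    have : Infinite (AlgebraicClosure (L v)) :=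
      Infinite.of_injective _ (algebraMap (L v) (AlgebraicClosure (L v))).injective
    exact good_or hA hB (hg v) (on_closure hT v) (hne v).1 (hne v).2
  have h0 := fun v => on_closure hT v
  rcases hG with hG | hG | ⟨hF, hG⟩
  · choose x h1 h2 using fun v => good_descent (fun i j k l => σ v (c i j k l)) (h0 v) (hG v)
    exact nice_main hσ (Nice.moveX T x h1 (Nice.good _ h2)) hT
  · have h0' : ∀ v, form (sw fun i j k l => σ v (c i j k l)) (T v).swap.1 (T v).swap.2 = 0 :=
      fun v => (form_sw (fun i j k l => σ v (c i j k l)) (T v).1 (T v).2).trans (h0 v)
    choose y h1 h2 using fun v => good_descent (sw fun i j k l => σ v (c i j k l)) (h0' v) (hG v)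
    have h3 : ∀ v, form (fun i j k l => σ v (c i j k l)) (T v).1 (y v) = 0 ∧
        polY (fun i j k l => σ v (c i j k l)) (T v).1 (T v).2 (y v) ≠ 0 := by
      intro v
      refine ⟨?_, ?_⟩
      · rw [← form_sw]
        exact (h1 v).1
      · rw [polY_sw]
        exact (h1 v).2
    exact nice_main hσ (Nice.moveY T y h3 (Nice.good' _ h2)) hT
  · exact mixed hσ (fun v => (hF v).2) (fun v => (hF v).1) hT hG

end Pool.Agent.Results.MP_12adaf_nt.BidegreeTwoTwo
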