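import Pool.Agent.R70.OC.Main

/-!
# The closure of the rational points is open where a family of self-maps is submersive

Let `X` be a variety over a number field `K`, and let `S` be a finite set of places of `K`. The
conjecture of Colliot-Thélène implies for smooth projective rationally connected `X` that the
closure of `X(K)` in the product of the `X(K_v)`, `v` in `S`, is open. We prove that this is true
near all points where a family of self-maps of `X` with rational parameters, defined over `K`, is
submersive.

A family of self-maps is a rational map `Φ : 𝔸ᵐ × X ⇢ X` over `K`. Examples are the families of
rational curves through the points of `X`, for instance the conics of a conic fibration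
(`Φ(0, x) = x`, and `t ↦ Φ(t, x)` parametrizes the conic through `x`), all compositions of such
families (for instance one can move along the conics of several conic fibrations and then back), and
families of birational self-maps such as `x ↦ (x ∘ y₀) ∘ y(t)` on a cubic hypersurface, where
`x ∘ y` is the third intersection point of the line through `x` and `y`.

**Theorem.** Let `T = (T_v)` be a system of smooth local points `T_v` of `X`, which is in the closure
of `X(K)`. Suppose that for all `v` in `S` there are parameters `t_v` over `K_v` such that
`Φ(t_v, T_v) = T_v` and `Φ(·, T_v)` is submersive at `t_v`. Then the closure of `X(K)` in the product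
of the `X(K_v)` is a neighbourhood of `T`.

In particular, if `Φ(0, x) = x` and `Φ(·, x)` is submersive at `0` for all `x` in an open subset `V`
of `X`, then the closure of `X(K)` is open in the product of the `V(K_v)`, for all finite sets of
places. No compactness and no condition on the Brauer group is supposed, and the parameters `t_v`
do not have to be close to each other.

The fields `K_v` may be arbitrary complete valued fields, such that `K` is dense in their product
(for a number field and different places this is the weak approximation theorem).
-/

set_option autoImplicit false

namespace Pool.Agent.Results.MP_12adaf_nt.SelfMapFamilies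

open MvPolynomial Pool.Agent.R70.OC Topology

/-- Let `X = {p = 0, g ≠ 0}` be a variety over a field `K`, and `F` a family of self-maps of `X` over
`K` with `m` parameters. Let `L v` be finitely many complete valued extensions of `K` such that `K`
is dense in their product. Let `T` be a point of the product of the `X(L v)`, which is in the closure
of `X(K)`, such that for all `v` the equations `p` have maximal rank at `T v`, and the family `F` is
submersive at `T v` (for some parameters which fix `T v`). Then all points of the product of the
`X(L v)` which are close to `T` are in the closure of `X(K)`. -/
theorem result {K : Type} [Field K] {N c m : ℕ} (p : Fin c → MvPolynomial (Fin N) K)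
    (g : MvPolynomial (Fin N) K) (F : Family p g m)
    {ι : Type} [Finite ι] (L : ι → Type) [∀ v, NontriviallyNormedField (L v)]
    [∀ v, CompleteSpace (L v)] (σ : ∀ v, K →+* L v)
    (hσ : DenseRange fun (a : K) (v : ι) => σ v a)
    (T : ∀ v, Fin N → L v) (hT : T ∈ closure (image p g σ)) (hX : ∀ v, OnX p g (σ v) (T v))
    (hs : ∀ v, SmoothAt p (σ v) (T v)) (hF : ∀ v, F.SubmersiveAt (σ v) (T v)) :
    ∃ U ∈ 𝓝 T, ∀ S ∈ U, (∀ v, OnX p g (σ v) (S v)) → S ∈ closure (image p g σ) := by
  obtain ⟨U, hU, h⟩ := open_closure F σ hσ T hT (fun v => (hX v).2) hs hF
  exact ⟨U, hU, fun S hS hSX => h S hS fun v i => (hSX v).1 i⟩

end Pool.Agent.Results.MP_12adaf_nt.SelfMapFamilies
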