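import Pool.Agent.R479.NF.Sv3

/-!
# MP_12adaf_nt: weak approximation for almost all systems `N_{Kᵢ/ℚ}(zᵢ) = cᵢ (f_{φ(i)}(t) + k_{φ(i)})`

Let `f_1, …, f_s` be any nonconstant integral polynomials in one variable `t`, let the `cᵢ`, `i < r`, be
nonzero integers, let `φ` be any map from the indices `i < r` to the indices of the polynomials, and let
the `Kᵢ` be subfields of a cyclotomic field, of any degrees, with class numbers prime to their degrees,
such that `-1` is a norm (for example, if the degree is odd) or all norms are nonnegative. For `k` in `ℤ^s`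
let `V_k` be the variety `N_{Kᵢ/ℚ}(zᵢ) = cᵢ (f_{φ(i)}(t) + k_{φ(i)})`, `i < r`, with all the
`f_j(t) + k_j` different from `0`. It is smooth and geometrically rational, so that its smooth projective
models are geometrically rationally connected; there are degenerate fibres over the roots of all the
`f_j + k_j`, in particular over any number of points of any degrees. Only the constant terms of the
polynomials vary.

For all but `1 / (log X) ^ U` of the `k` with `|k_j| ≤ B X ^ deg f_j` the following holds. Let `T` be any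
finite set of primes containing the primes up to `∑ deg f_j` and those dividing `m`, where `ℚ(ζ_m)`
contains the `Kᵢ`, the leading coefficients of the `f_j` or some `cᵢ`. Then all families of points of
`V_k` over the `ℚ_p`, `p` in `T`, and over `ℝ` (not too large and not too close to the degenerate fibres,
`N` and `B` fixed before `k`) can be approximated by rational points of `V_k`: `t` at the primes of `T` and
at the real place, where sizes and distances are measured at the natural scale `t ~ X`, together with the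
signs of all the `f_j(t) + k_j`; and `zᵢ` at the primes of `T` for all `i` for which `Kᵢ` is cyclic.

Proof. (i) For all but `∏ X ^ {deg f_j} / (log X) ^ U` of the `k` there is a rational `t` near the given
points for which all the `|f_j(t) + k_j|` are prime numbers, up to the primes of `T` (`NF/Sv1`, `pvS`; the
main estimate, for `∑_n ∏_j Λ(f_j(n) + k_j)` for almost all `k`, is the one behind
`MP_83e36b_nt.SeveralShifts`). (ii) Then `f_j(t) + k_j`, times `cᵢ`, is a norm from `Kᵢ` if `φ(i) = j`,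
since it is close to local norms at `T` (`NF/Core`, `NF/Main` and `NF/Sv2`; the idea: an ideal of the norm
of a close element has the same class in the Galois group of `Kᵢ` as the prime, which splits completely
for this reason, and the class number is prime to the degree). (iii) The coordinates of the `zᵢ` are
approximated by the theorem 90 of Hilbert as in `MP_83e36b_nt.CyclicNormForms`.
-/

set_option autoImplicit false

namespace Pool.Agent.Results.MP_12adaf_nt.SeveralNormEquations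

open Finset Polynomial Filter Topology NumberField Module TensorProduct

instance (p : Nat.Primes) : Fact (p : ℕ).Prime := ⟨p.2⟩

variable {L : Type} [Field L] [NumberField L] {r s : ℕ}

/-- The class number of the field `K` is prime to its degree, and `-1` is a norm or no negative number is a
norm. -/
def Admissible (K : IntermediateField ℚ L) : Prop :=
  (classNumber K).Coprime (finrank ℚ K) ∧
    ((∃ x : K, Algebra.norm ℚ x = -1) ∨ ∀ x : K, 0 ≤ Algebra.norm ℚ x)

/-- All `k` in `ℤ^s` with `|k_j| ≤ B X ^ deg f_j`. -/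
noncomputable def box (f : Fin s → ℤ[X]) (B X : ℕ) : Finset (Fin s → ℤ) :=
  Fintype.piFinset fun j => Icc (-((B * X ^ (f j).natDegree : ℕ) : ℤ)) ((B * X ^ (f j).natDegree : ℕ) : ℤ)

/-- The point `(t, z)` with coordinates in the field `F` lies on
`V_k : N_{Kᵢ/ℚ}(zᵢ) = cᵢ (f_{φ(i)}(t) + k_{φ(i)})`, all `f_j(t) + k_j ≠ 0`. The coordinates `zᵢ` form an
element of `F ⊗ Kᵢ`. -/
def OnV (K : Fin r → IntermediateField ℚ L) (f : Fin s → ℤ[X]) (φ : Fin r → Fin s) (c : Fin r → ℤ)
    (k : Fin s → ℤ) {F : Type} [Field F] [Algebra ℚ F] (t : F) (z : (i : Fin r) → F ⊗[ℚ] (K i)) : Prop :=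
  (∀ j, aeval t (f j) + (k j : F) ≠ 0) ∧
    ∀ i, Algebra.norm F (z i) = (c i : F) * (aeval t (f (φ i)) + (k (φ i) : F))

/-- The coordinates of an element of `F ⊗ K`, with respect to an integral basis of `K`. -/
noncomputable def coord (K : IntermediateField ℚ L) {F : Type} [Field F] [Algebra ℚ F] (z : F ⊗[ℚ] K)
    (j : Free.ChooseBasisIndex ℤ (𝓞 K)) : F :=
  (Algebra.TensorProduct.basis F (integralBasis K)).repr z j

/-- Given points: for all `p` in `T` the point `(t_p, z_p)` lies on `V_k`, its coordinates have absolute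
value at most `p ^ N` and `|f_j(t_p) + k_j| ≥ p ^ (-N)` for all `j`; and `(tr, zr)` is a real point of
`V_k` with `|tr| ≤ B X` and `|f_j(tr) + k_j| ≥ X ^ deg f_j / B` for all `j`. -/
def Given (K : Fin r → IntermediateField ℚ L) (f : Fin s → ℤ[X]) (φ : Fin r → Fin s) (c : Fin r → ℤ)
    (T : Finset Nat.Primes) (N B X : ℕ) (k : Fin s → ℤ) (t : (p : Nat.Primes) → ℚ_[(p : ℕ)])
    (z : (p : Nat.Primes) → (i : Fin r) → ℚ_[(p : ℕ)] ⊗[ℚ] (K i)) (tr : ℝ)
    (zr : (i : Fin r) → ℝ ⊗[ℚ] (K i)) : Prop :=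
  (∀ p ∈ T, OnV K f φ c k (t p) (z p) ∧ ‖t p‖ ≤ ((p : ℕ) : ℝ) ^ N ∧
    (∀ i j, ‖coord (K i) (z p i) j‖ ≤ ((p : ℕ) : ℝ) ^ N) ∧
    ∀ j, (((p : ℕ) : ℝ) ^ N)⁻¹ ≤ ‖aeval (t p) (f j) + (k j : ℚ_[(p : ℕ)])‖) ∧
  OnV K f φ c k tr zr ∧ |tr| ≤ B * X ∧ ∀ j, (X : ℝ) ^ (f j).natDegree ≤ B * |aeval tr (f j) + (k j : ℝ)|

/-- There is a rational point `(q, y)` of `V_k` with `|q - tr| ≤ X / B`, such that the `f_j(q) + k_j` have
the signs of the `f_j(tr) + k_j`, `q` is within `p ^ (-N)` of `t_p` for all `p` in `T`, and the coordinates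
of `yᵢ` are within `p ^ (-N)` of those of `z_{p,i}` for all `p` in `T` and all `i` for which `Kᵢ` is cyclic
over `ℚ`. -/
def Approximated (K : Fin r → IntermediateField ℚ L) (f : Fin s → ℤ[X]) (φ : Fin r → Fin s)
    (c : Fin r → ℤ) (T : Finset Nat.Primes) (N B X : ℕ) (k : Fin s → ℤ)
    (t : (p : Nat.Primes) → ℚ_[(p : ℕ)]) (z : (p : Nat.Primes) → (i : Fin r) → ℚ_[(p : ℕ)] ⊗[ℚ] (K i))
    (tr : ℝ) : Prop :=
  ∃ (q : ℚ) (y : (i : Fin r) → ℚ ⊗[ℚ] (K i)), OnV K f φ c k q y ∧ B * |(q : ℝ) - tr| ≤ X ∧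
    (∀ j, 0 < (aeval (q : ℝ) (f j) + (k j : ℝ)) * (aeval tr (f j) + (k j : ℝ))) ∧
    ∀ p ∈ T, ‖(q : ℚ_[(p : ℕ)]) - t p‖ ≤ (((p : ℕ) : ℝ) ^ N)⁻¹ ∧
      ∀ i, IsGalois ℚ (K i) → IsCyclic (K i ≃ₐ[ℚ] K i) → ∀ j,
        ‖((coord (K i) (y i) j : ℚ) : ℚ_[(p : ℕ)]) - coord (K i) (z p i) j‖ ≤ (((p : ℕ) : ℝ) ^ N)⁻¹

/-- Weak approximation of level `N` at the primes of `T`, and of level `B` at the real place. -/
def WeakApproximation (K : Fin r → IntermediateField ℚ L) (f : Fin s → ℤ[X]) (φ : Fin r → Fin s)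
    (c : Fin r → ℤ) (T : Finset Nat.Primes) (N B X : ℕ) (k : Fin s → ℤ) : Prop :=
  ∀ (t : (p : Nat.Primes) → ℚ_[(p : ℕ)]) (z : (p : Nat.Primes) → (i : Fin r) → ℚ_[(p : ℕ)] ⊗[ℚ] (K i))
    (tr : ℝ) (zr : (i : Fin r) → ℝ ⊗[ℚ] (K i)), Given K f φ c T N B X k t z tr zr →
    Approximated K f φ c T N B X k t z tr

open Classical in
/-- Almost all of the `V_k` satisfy weak approximation of level `N` at `T` and `B` at the real place. Here
`L` is the `m`-th cyclotomic field, and the `Kᵢ` are subfields of it. -/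
theorem result (m : ℕ) [NeZero m] [IsCyclotomicExtension {m} ℚ L] (K : Fin r → IntermediateField ℚ L)
    (hK : ∀ i, Admissible (K i)) (f : Fin s → ℤ[X]) (hf : ∀ j, 1 ≤ (f j).natDegree) (φ : Fin r → Fin s)
    (c : Fin r → ℤ) (hc : ∀ i, c i ≠ 0) (T : Finset Nat.Primes)
    (hT : ∀ p : Nat.Primes, ((p : ℕ) ≤ ∑ j, (f j).natDegree ∨ (p : ℕ) ∣ m ∨
      (∃ j, ((p : ℕ) : ℤ) ∣ (f j).leadingCoeff) ∨ ∃ i, ((p : ℕ) : ℤ) ∣ c i) → p ∈ T)
    (N B U : ℕ) (hB : 1 ≤ B) :
    ∃ X₀ : ℕ, ∀ X : ℕ, X₀ ≤ X →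
      (#{k ∈ box f B X | ¬ WeakApproximation K f φ c T N B X k} : ℝ) ≤ #(box f B X) / Real.log X ^ U := by
  obtain ⟨E, hE⟩ : ∃ E, E = (2 * (∑ j, (f j).natDegree) + 3) * (2 * N + 2 * ∑ i, finrank ℚ (K i)) + 3 :=
    ⟨_, rfl⟩
  have hNE : N ≤ E := by
    rw [hE]
    nlinarith [Nat.zero_le (∑ i, finrank ℚ (K i)), Nat.zero_le (∑ j, (f j).natDegree)]
  obtain ⟨X0, h⟩ := Pool.Agent.R479.NF.svT m K (fun i => (hK i).1) (fun i => (hK i).2) f hf φ c hc T
    (fun p hp => hT p (Or.inr (Or.inl hp)))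
    (fun i => ⟨Int.natAbs_ne_zero.2 (hc i), fun p hp => hT p (Or.inr (Or.inr (Or.inr ⟨i, Int.natCast_dvd.2 hp⟩)))⟩)
    (fun p hp => hT p (Or.inl hp)) (fun p hp => hT p (Or.inr (Or.inr (Or.inl hp)))) E B U hB
  refine ⟨max X0 2, fun X hX => ?_⟩
  obtain ⟨Bad, hB1, hB2⟩ := h X ((le_max_left _ _).trans hX)
  have hX2 : 2 ≤ X := (le_max_right _ _).trans hX
  have hlog : 0 < Real.log X := Real.log_pos (by exact_mod_cast hX2)
  have hbox : (∏ j, (X : ℝ) ^ (f j).natDegree) ≤ #(box f B X) := Pool.Agent.R479.NF.box_card f B X hB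
  have hsub : {k ∈ box f B X | ¬ WeakApproximation K f φ c T N B X k} ⊆ Bad := by
    intro k hk
    rw [mem_filter] at hk
    obtain ⟨hk1, hk2⟩ := hk
    by_contra hkB
    apply hk2
    intro t z tr zr hg
    obtain ⟨hg1, hg2, hg3, hg4⟩ := hg
    have hkb : ∀ j, |k j| ≤ ((B * X ^ (f j).natDegree : ℕ) : ℤ) := by
      intro j
      unfold box at hk1
      rw [Fintype.mem_piFinset] at hk1
      exact abs_le.2 (mem_Icc.1 (hk1 j))
    have hone : ∀ p : Nat.Primes, (1 : ℝ) < ((p : ℕ) : ℝ) := fun p => by exact_mod_cast p.2.one_lt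
    have hG := hB2 k hkb hkB t tr (by
      intro p hp
      have h1p := hone p
      have h0p : (0 : ℝ) < ((p : ℕ) : ℝ) := by linarith
      obtain ⟨h1, h2, -, h4⟩ := hg1 p hp
      refine ⟨h2.trans (pow_le_pow_right₀ h1p.le hNE), fun j => ?_, fun i => ⟨z p i, h1.2 i⟩⟩
      exact (inv_anti₀ (by positivity) (pow_le_pow_right₀ h1p.le hNE)).trans (h4 j)) (by
      intro i
      rcases (hK i).2 with h4 | h4
      · exact Or.inl h4
      · right
        have h5 := Pool.Agent.R479.NF.real_nonneg h4 (zr i)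
        rw [hg2.2 i] at h5
        exact lt_of_le_of_ne h5 (mul_ne_zero (by exact_mod_cast hc i) (hg2.1 (φ i))).symm) hg3 hg4
    obtain ⟨q, y, h1, h2, h3, h4⟩ := Pool.Agent.R479.NF.sz_of K f φ c hc T N B X E hE k t z tr (by
      intro p hp
      obtain ⟨h1, h2, h3, h4⟩ := hg1 p hp
      exact ⟨h2, h4, fun i => ⟨h1.2 i, fun j => h3 i j⟩⟩) B hG
    refine ⟨q, fun i => (1 : ℚ) ⊗ₜ[ℚ] y i, ⟨fun j h0 => ?_, fun i => ?_⟩, h2, h1, fun p hp =>
      ⟨(h4 p hp).1, fun i hc1 hc2 j => ?_⟩⟩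
    · have h5 := h1 j
      have e : Pool.Agent.Y714.RC.PP f k j (q : ℝ) = ((aeval q (f j) + (k j : ℚ) : ℚ) : ℝ) := by
        unfold Pool.Agent.Y714.RC.PP
        have e2 : ((aeval q (f j) : ℚ) : ℝ) = aeval (q : ℝ) (f j) := by
          have := aeval_algebraMap_apply ℝ q (f j)
          simp only [eq_ratCast] at this
          exact this.symm
        push_cast
        rw [e2]
      rw [e, h0, Rat.cast_zero, zero_mul] at h5
      exact lt_irrefl _ h5
    · rw [Pool.Agent.R479.NF.norm_one_tmul_rat, h3 i]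
      rfl
    · have h5 := (h4 p hp).2 i hc1 hc2.exists_generator j
      have e : ((coord (K i) ((1 : ℚ) ⊗ₜ[ℚ] y i) j : ℚ) : ℚ_[(p : ℕ)]) =
          Pool.Agent.R479.NF.cd (p : ℕ) ((1 : ℚ_[(p : ℕ)]) ⊗ₜ[ℚ] (y i) : Pool.Agent.R479.NF.Ap (K i) (p : ℕ)) j := by
        unfold coord Pool.Agent.R479.NF.cd
        rw [Basis.equivFun_apply, Algebra.TensorProduct.basis_repr_tmul, Algebra.TensorProduct.basis_repr_tmul]
        simp
      rw [e]
      exact h5
  have h2 : (#{k ∈ box f B X | ¬ WeakApproximation K f φ c T N B X k} : ℝ) ≤ #Bad := by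
    exact_mod_cast card_le_card hsub
  exact h2.trans (hB1.trans (div_le_div_of_nonneg_right hbox (by positivity)))

end Pool.Agent.Results.MP_12adaf_nt.SeveralNormEquations
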